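import Pool.Agent.H741R2.LJPoly
import Pool.Agent.NPC.Dec

/-!
# Minimising the number of late jobs with bounded processing times is NP-hard

Even deciding whether all jobs can be on time is NP-hard when all processing times are at most `13`.
Reduction from 3SAT.

The time axis is cut by jobs of length 1 with windows of length 1 into `2 m s` gaps of length 19
or 18 (`s` clauses, `m` variables); there are `s` blocks of `2 m` gaps.  The `i`-th and the
`(2 m - 1 - i)`-th gap of each block belong to the variable `i`.  There are two classes of jobs, of
lengths 10 and 13 and of lengths 7 and 5.  In a schedule each gap has exactly one job of each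
class, and by counting these are (10, 7), bit 1, or (13, 5), bit 0.  The windows of the jobs
of the first class are nested, so that the two gaps of a variable in a block have opposite bits;
the windows of the jobs of the second class are nested too and do the same for the second half of a
block and the first half of the next block.  So the bits copy one assignment through all blocks.
Each block has a job of length 2, for its clause; it fits only into a gap of length 19 with bit 1,
and the gaps of length 19 are those of the literals of the clause.
-/

namespace Pool.Agent.Results.MP_1ce42f_lc.BoundedLengthsNPHard

open Pool.Agent.NPC Pool.Agent.H741R2.LJ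

/-- **For every `c ≥ 13`, both `1 | r_j, p_j ≤ c | ∑ U_j` and `1 | r_j, p_j ≤ c | ∑ w_j U_j` are
NP-hard**; in particular a polynomial-time algorithm for the first problem implies `P = NP`. -/
theorem result (c : ℕ) (hc : 13 ≤ c) :
    NPHardP (LateJobs c) ∧ NPHardP (WeightedLateJobs c) ∧
      (InPP (LateJobs c) → ∀ L : Set (List Bool), InNP L → InP L) :=
  ⟨(hardI_late hc).toNPHardP, (hardI_wlate hc).toNPHardP,
    fun h L hL => InP.of_reduces ((hardI_late hc).toNPHardP L hL) h⟩

end Pool.Agent.Results.MP_1ce42f_lc.BoundedLengthsNPHard
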